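import Pool.Agent.Helper99.PG.Goals

/-!
Packet PG-MF: the matrix of a filled diagram is the matrix of a composite.
-/

namespace Pool.Agent.Helper50.PG

open Pool.Agent.Helper36.SC Pool.Agent.Helper37.Arb Pool.Agent.Helper52.C2
open Pool.Agent.Helper99.PG
open scoped Classical

theorem sumElim {V : Type} [Fintype V] [DecidableEq V] {ι : V → Type} [∀ v, DecidableEq (ι v)]
    (up : V → Option V) (s r : ∀ v, ι v) (c : V → ℝ) (i j : Σ v, ι v) :
    (∑ v, (up v).elim (0 : Matrix (Σ v, ι v) (Σ v, ι v) ℝ)
      (fun w => Matrix.single ⟨v, s v⟩ ⟨w, r w⟩ (c v))) i j =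
    if i.2 = s i.1 then (up i.1).elim 0 (fun w => if j = ⟨w, r w⟩ then c i.1 else 0) else 0 := by
  rw [Matrix.sum_apply, Finset.sum_eq_single i.1]
  · obtain ⟨v, p⟩ := i
    cases h : up v with
    | none => simp
    | some w =>
      simp only [Option.elim_some, Matrix.single_apply]
      by_cases hp : p = s v
      · subst hp
        by_cases hj : j = ⟨w, r w⟩
        · subst hj
          simp
        · have hj' : ¬ (⟨w, r w⟩ : Σ v, ι v) = j := fun h => hj h.symm
          simp [hj, hj']
      · have hp' : ¬ s v = p := fun h => hp h.symm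
        simp [hp, hp']
  · intro b _ hb
    cases h : up b with
    | none => simp
    | some w =>
      simp only [Option.elim_some, Matrix.single_apply]
      rw [if_neg]
      rintro ⟨h1, -⟩
      exact hb (congrArg Sigma.fst h1)
  · intro h
    exact absurd (Finset.mem_univ _) h

section

variable {V : Type} [DecidableEq V] (M : V → Marked) (x : ℝ)

theorem blk (i j : Σ v, (M v).V) :
    Matrix.blockDiagonal' (fun v => openMat true (M v) x) i j =
      (1 + x) * (if j = i then 1 else 0)
      - fwd (M i.1).D x i.2 * (if j = ⟨i.1, (M i.1).D.underNext i.2⟩ then 1 else 0)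
      - bwd (M i.1).D x i.2 * (if j = ⟨i.1, (M i.1).D.overNext.symm i.2⟩ then 1 else 0)
      + (if i.2 = (M i.1).l ∧ j = ⟨i.1, (M i.1).D.underNext (M i.1).l⟩ then
          fwd (M i.1).D x (M i.1).l else 0)
      + (if i.2 = (M i.1).D.overNext (M i.1).r ∧ j = ⟨i.1, (M i.1).r⟩ then
          bwd (M i.1).D x ((M i.1).D.overNext (M i.1).r) else 0) := by
  obtain ⟨v, p⟩ := i
  obtain ⟨w, q⟩ := j
  by_cases h : v = w
  · subst h
    rw [Matrix.blockDiagonal'_apply_eq]
    simp only [openMat, lap, stepU, stepO, Matrix.add_apply, Matrix.of_apply, Matrix.single_apply,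
      if_true, Sigma.mk.injEq, heq_eq_eq, true_and]
    simp only [eq_comm (a := (M v).l) (b := p), eq_comm (a := (M v).D.underNext (M v).l) (b := q),
      eq_comm (a := (M v).D.overNext (M v).r) (b := p), eq_comm (a := (M v).r) (b := q)]
  · rw [Matrix.blockDiagonal'_apply_ne _ _ _ h]
    have h' : ¬ w = v := fun e => h e.symm
    simp [h']

end

theorem matFill : GoalMatFill := by
  intro V _ _ S M x
  obtain ⟨w0, hw0⟩ : ∃ w0, S.D.overNext none = some w0 := by
    cases h : S.D.overNext none with
    | some w => exact ⟨w, rfl⟩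
    | none =>
      have := S.D.overNext.injective (S.hr.trans h.symm)
      exact absurd this (by simp)
  have heU : ∀ v, v ≠ S.l → S.D.underNext (some v) = some (Equiv.removeNone S.D.underNext v) := by
    intro v hv
    refine (Equiv.removeNone_some _ ?_).symm
    cases h : S.D.underNext (some v) with
    | some w => exact ⟨w, rfl⟩
    | none =>
      have := S.D.underNext.injective (h.trans S.hl.symm)
      exact absurd (Option.some.inj this) hv
  have her : Equiv.removeNone S.D.overNext S.r = w0 := by
    have := Equiv.removeNone_none S.D.overNext S.hr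
    rw [hw0] at this
    exact Option.some.inj this
  have hdn0 : S.D.overNext.symm (some w0) = none := by
    rw [← hw0, Equiv.symm_apply_apply]
  have heO : ∀ v, v ≠ w0 →
      S.D.overNext.symm (some v) = some ((Equiv.removeNone S.D.overNext).symm v) := by
    intro v hv
    rw [Equiv.removeNone_symm]
    refine (Equiv.removeNone_some _ ?_).symm
    cases h : S.D.overNext.symm (some v) with
    | some w => exact ⟨w, rfl⟩
    | none =>
      rw [Equiv.symm_apply_eq, hw0] at h
      exact absurd (Option.some.inj h) hv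
  have hU : ∀ i : Σ v, (M v).V, (fill S.D S.l S.r M).D.underNext i =
      if i.2 = (M i.1).l then ⟨Equiv.removeNone S.D.underNext i.1,
        (M (Equiv.removeNone S.D.underNext i.1)).D.underNext
          (M (Equiv.removeNone S.D.underNext i.1)).l⟩
      else ⟨i.1, (M i.1).D.underNext i.2⟩ := by
    rintro ⟨v, p⟩
    have h1 : (fill S.D S.l S.r M).D.underNext ⟨v, p⟩ =
      (Equiv.sigmaCongrRight fun v => (M v).D.underNext)
        (mv (Equiv.removeNone S.D.underNext) (fun v => (M v).l) ⟨v, p⟩) := rfl
    rw [h1]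
    unfold mv
    by_cases hp : p = (M v).l
    · simp only [hp, if_true]
      rfl
    · simp only [hp, if_false]
      rfl
  have hO : ∀ i : Σ v, (M v).V, (fill S.D S.l S.r M).D.overNext.symm i =
      if i.2 = (M i.1).D.overNext (M i.1).r then ⟨(Equiv.removeNone S.D.overNext).symm i.1,
          (M ((Equiv.removeNone S.D.overNext).symm i.1)).r⟩
      else ⟨i.1, (M i.1).D.overNext.symm i.2⟩ := by
    rintro ⟨v, p⟩
    have h1 : (fill S.D S.l S.r M).D.overNext.symm ⟨v, p⟩ =
      (mv (Equiv.removeNone S.D.overNext).symm (fun v => (M v).r)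
        ⟨v, (M v).D.overNext.symm p⟩) := rfl
    rw [h1]
    unfold mv
    by_cases hp : p = (M v).D.overNext (M v).r
    · subst hp
      simp only [Equiv.symm_apply_apply, if_true]
    · have hp' : ¬ (M v).D.overNext.symm p = (M v).r := fun h =>
        hp ((Equiv.symm_apply_eq _).1 h)
      simp only [hp, hp', if_false]
  have hOr : (fill S.D S.l S.r M).D.overNext ⟨S.r, (M S.r).r⟩ =
      ⟨w0, (M w0).D.overNext (M w0).r⟩ := by
    have h1 : (fill S.D S.l S.r M).D.overNext ⟨S.r, (M S.r).r⟩ =
      (Equiv.sigmaCongrRight fun v => (M v).D.overNext)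
        (mv (Equiv.removeNone S.D.overNext) (fun v => (M v).r) ⟨S.r, (M S.r).r⟩) := rfl
    rw [h1, mv_mark, her]
    rfl
  have hO0 : (fill S.D S.l S.r M).D.overNext.symm ⟨w0, (M w0).D.overNext (M w0).r⟩ =
      ⟨S.r, (M S.r).r⟩ := by
    rw [← hOr, Equiv.symm_apply_apply]
  have hpartU : ∀ i j : Σ v, (M v).V,
      - (fwd (M i.1).D x i.2 * (if j = (fill S.D S.l S.r M).D.underNext i then 1 else 0))
        + (stepU (fill S.D S.l S.r M).D x ⟨S.l, (M S.l).l⟩) i j =
      - (fwd (M i.1).D x i.2 * (if j = ⟨i.1, (M i.1).D.underNext i.2⟩ then 1 else 0))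
      + (if i.2 = (M i.1).l ∧ j = ⟨i.1, (M i.1).D.underNext (M i.1).l⟩ then
          fwd (M i.1).D x (M i.1).l else 0)
      - (if i.2 = (M i.1).l then (S.D.underNext (some i.1)).elim 0
          (fun w => if j = ⟨w, (M w).D.underNext (M w).l⟩ then fwd (M i.1).D x (M i.1).l else 0)
          else 0) := by
    rintro ⟨v, p⟩ j
    have hst : (stepU (fill S.D S.l S.r M).D x ⟨S.l, (M S.l).l⟩) ⟨v, p⟩ j =
        if (⟨S.l, (M S.l).l⟩ : Σ v, (M v).V) = ⟨v, p⟩ ∧
          (fill S.D S.l S.r M).D.underNext ⟨S.l, (M S.l).l⟩ = j then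
          fwd (M S.l).D x (M S.l).l else 0 := by
      unfold stepU
      rw [Matrix.single_apply]
      rfl
    rw [hst]
    by_cases hp : p = (M v).l
    · subst hp
      by_cases hv : v = S.l
      · subst hv
        rw [S.hl]
        by_cases hj : j = (fill S.D S.l S.r M).D.underNext ⟨S.l, (M S.l).l⟩
        · rw [if_pos hj, if_pos ⟨rfl, hj.symm⟩]
          simp only [true_and, if_true, Option.elim_none]
          split_ifs <;> ring
        · rw [if_neg hj, if_neg (fun h => hj h.2.symm)]
          simp only [true_and, if_true, Option.elim_none]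
          split_ifs <;> ring
      · have hv' : ¬ (⟨S.l, (M S.l).l⟩ : Σ v, (M v).V) = ⟨v, (M v).l⟩ := fun h =>
          hv (congrArg Sigma.fst h).symm
        rw [heU v hv, hU]
        simp only [hv', false_and, if_false, if_true, Option.elim_some, true_and]
        split_ifs <;> ring
    · have hv' : ¬ (⟨S.l, (M S.l).l⟩ : Σ v, (M v).V) = ⟨v, p⟩ := by
        intro h
        have h1 := congrArg Sigma.fst h
        dsimp only at h1
        subst h1
        simp only [Sigma.mk.injEq, heq_eq_eq, true_and] at h
        exact hp h.symm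
      rw [hU]
      simp only [hp, hv', false_and, if_false]
      ring
  have hpartO : ∀ i j : Σ v, (M v).V,
      - (bwd (M i.1).D x i.2 * (if j = (fill S.D S.l S.r M).D.overNext.symm i then 1 else 0))
        + (stepO (fill S.D S.l S.r M).D x ⟨S.r, (M S.r).r⟩) i j =
      - (bwd (M i.1).D x i.2 * (if j = ⟨i.1, (M i.1).D.overNext.symm i.2⟩ then 1 else 0))
      + (if i.2 = (M i.1).D.overNext (M i.1).r ∧ j = ⟨i.1, (M i.1).r⟩ then
          bwd (M i.1).D x ((M i.1).D.overNext (M i.1).r) else 0)
      - (if i.2 = (M i.1).D.overNext (M i.1).r then (S.D.overNext.symm (some i.1)).elim 0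
          (fun w => if j = ⟨w, (M w).r⟩ then
            bwd (M i.1).D x ((M i.1).D.overNext (M i.1).r) else 0)
          else 0) := by
    rintro ⟨v, p⟩ j
    have hst : (stepO (fill S.D S.l S.r M).D x ⟨S.r, (M S.r).r⟩) ⟨v, p⟩ j =
        if (⟨w0, (M w0).D.overNext (M w0).r⟩ : Σ v, (M v).V) = ⟨v, p⟩ ∧
          ⟨S.r, (M S.r).r⟩ = j then
          bwd (M w0).D x ((M w0).D.overNext (M w0).r) else 0 := by
      unfold stepO
      rw [Matrix.single_apply, hOr]
      rfl
    rw [hst]
    by_cases hp : p = (M v).D.overNext (M v).r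
    · subst hp
      by_cases hv : v = w0
      · subst hv
        rw [hdn0, hO0]
        simp only [if_true, true_and, Option.elim_none, Equiv.symm_apply_apply]
        simp only [eq_comm (a := (⟨S.r, (M S.r).r⟩ : Σ v, (M v).V)) (b := j)]
        split_ifs <;> ring
      · have hv' : ¬ (⟨w0, (M w0).D.overNext (M w0).r⟩ : Σ v, (M v).V) =
            ⟨v, (M v).D.overNext (M v).r⟩ := fun h =>
          hv (congrArg Sigma.fst h).symm
        rw [heO v hv, hO]
        simp only [hv', false_and, if_false, if_true, Option.elim_some, true_and,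
          Equiv.symm_apply_apply]
        split_ifs <;> ring
    · have hv' : ¬ (⟨w0, (M w0).D.overNext (M w0).r⟩ : Σ v, (M v).V) = ⟨v, p⟩ := by
        intro h
        have h1 := congrArg Sigma.fst h
        dsimp only at h1
        subst h1
        simp only [Sigma.mk.injEq, heq_eq_eq, true_and] at h
        exact hp h.symm
      rw [hO]
      simp only [hp, hv', false_and, if_false]
      ring
  refine Matrix.ext (fun (i j : Σ v, (M v).V) => ?_)
  have hL : openMat true (fill S.D S.l S.r M) x i j =
      (1 + x) * (if j = i then 1 else 0)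
      + (- (fwd (M i.1).D x i.2 * (if j = (fill S.D S.l S.r M).D.underNext i then 1 else 0))
        + (stepU (fill S.D S.l S.r M).D x ⟨S.l, (M S.l).l⟩) i j)
      + (- (bwd (M i.1).D x i.2 * (if j = (fill S.D S.l S.r M).D.overNext.symm i then 1 else 0))
        + (stepO (fill S.D S.l S.r M).D x ⟨S.r, (M S.r).r⟩) i j) := by
    have h1 : openMat true (fill S.D S.l S.r M) x i j =
      ((1 + x) * (if j = i then 1 else 0)
      - (fwd (M i.1).D x i.2 * (if j = (fill S.D S.l S.r M).D.underNext i then 1 else 0))
      - (bwd (M i.1).D x i.2 * (if j = (fill S.D S.l S.r M).D.overNext.symm i then 1 else 0)))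
      + (stepU (fill S.D S.l S.r M).D x ⟨S.l, (M S.l).l⟩) i j
      + (stepO (fill S.D S.l S.r M).D x ⟨S.r, (M S.r).r⟩) i j := rfl
    rw [h1]
    ring
  refine hL.trans ?_
  rw [hpartU, hpartO]
  have hR : compMat (ι := fun v => (M v).V) (fun v => S.D.underNext (some v))
      (fun v => S.D.overNext.symm (some v)) (fun v => openMat true (M v) x)
      (fun v => (M v).l) (fun v => (M v).D.overNext (M v).r)
      (fun v => (M v).D.underNext (M v).l) (fun v => (M v).r)
      (fun v => fwd (M v).D x (M v).l)
      (fun v => bwd (M v).D x ((M v).D.overNext (M v).r)) i j =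
      Matrix.blockDiagonal' (fun v => openMat true (M v) x) i j
      - (∑ v, (S.D.underNext (some v)).elim (0 : Matrix (Σ v, (M v).V) (Σ v, (M v).V) ℝ)
        (fun w => Matrix.single ⟨v, (M v).l⟩ ⟨w, (M w).D.underNext (M w).l⟩
          (fwd (M v).D x (M v).l))) i j
      - (∑ v, (S.D.overNext.symm (some v)).elim (0 : Matrix (Σ v, (M v).V) (Σ v, (M v).V) ℝ)
        (fun w => Matrix.single ⟨v, (M v).D.overNext (M v).r⟩ ⟨w, (M w).r⟩
          (bwd (M v).D x ((M v).D.overNext (M v).r)))) i j := rfl
  rw [hR, blk,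
    sumElim (ι := fun v => (M v).V) (fun v => S.D.underNext (some v)) (fun v => (M v).l)
      (fun v => (M v).D.underNext (M v).l) (fun v => fwd (M v).D x (M v).l),
    sumElim (ι := fun v => (M v).V) (fun v => S.D.overNext.symm (some v))
      (fun v => (M v).D.overNext (M v).r) (fun v => (M v).r)
      (fun v => bwd (M v).D x ((M v).D.overNext (M v).r))]
  ring

end Pool.Agent.Helper50.PG
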